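import Pool.Agent.Lib_helper40.MC.T10u.Q
import Pool.Agent.Lib_helper40.MC.T10u.T

/-!
# c10u: all checks
-/

set_option autoImplicit false
set_option maxRecDepth 100000

namespace Pool.Agent.MC10u

open Pool.Agent.KC72 Pool.Agent.MC

theorem c10u_0 : Num c10u c10u_t := by decide +kernel

theorem c10u_om : xm c10u.kb c10u.ko (c10u.m * c10u.N) c10u.Om = true := by decide +kernel

theorem c10u_b : cB c10u = true := by decide +kernel

theorem c10u_r0 : blk (cR c10u) c10u.rels 60 0 = true := by decide +kernel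

theorem c10u_r1 : blk (cR c10u) c10u.rels 60 1 = true := by decide +kernel

theorem c10u_r2 : blk (cR c10u) c10u.rels 60 2 = true := by decide +kernel

theorem c10u_r' : ∀ k < 3, blk (cR c10u) c10u.rels 60 k = true
  | 0, _ => c10u_r0
  | 1, _ => c10u_r1
  | 2, _ => c10u_r2
  | k + 3, h => absurd h (by omega)

theorem c10u_g : allI (fun c g => cG c10u.DG c10u_t.B c10u_t.MA c10u_t.P2 c10u_t.MB c g) c10u.G 0 = true := by decide +kernel

theorem c10u_g' : c10u.toCert.chk3' = true := by decide +kernel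

theorem c10u_k1 : (c10u.cls.take c10u.m).map (prF c10u_t.p c10u.n c10u.r) = c10u_t.PR := by decide +kernel

theorem c10u_k2 : (c10u.cls.take c10u.m).map (pkw (Int.ofNat c10u_t.Z) (Int.ofNat (Nat.pow c10u_t.Z c10u.n)) c10u.r) = c10u_t.PM := by decide +kernel

theorem c10u_k3 : c10u_t.P2.map (fun x => pmb (Int.ofNat c10u_t.B) x.1 x.2 (c10u.cls.take c10u.m)) = c10u_t.MB := by decide +kernel

theorem c10u_e : c10u.cls.all (fun e => bdE c10u_t.MA c10u.n e.1.2 && bdE c10u_t.MA c10u.n e.2.2) = true := by decide +kernel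

theorem c10u_xq : c10u_t.XQ.all (fun X => X.all (xm c10u_t.a c10u_t.d c10u_t.S)) = true := by decide +kernel

theorem c10u_xt : c10u_t.XT.all (fun X => X.all (xm c10u_t.a' c10u_t.d' c10u_t.K)) = true := by decide +kernel

/-- all checks -/
theorem c10u_ok : ROk c10u :=
  rOk_of (A := c10u_t) (l4 := 60) (n4 := 3) (lQ := 40) (nQ := 5) (lT := 40) (nT := 5) c10u_0 c10u_om c10u_b
    (by decide) (by decide +kernel) c10u_r' c10u_g c10u_g' ⟨c10u_k1, c10u_k2, c10u_k3⟩ c10u_e c10u_xq c10u_xt (by decide) (by decide +kernel) c10u_q'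
    (by decide) (by decide +kernel) c10u_t'

end Pool.Agent.MC10u
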